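import Pool.Agent.Lib.MP_5b6025_nt.UB.Spec
import Pool.Agent.Lib.MP_5b6025_nt.DC.Tapp

/-!
# Module B: change of the base
-/

set_option autoImplicit false

open Polynomial Filter

namespace Pool.Agent.Lib.MP5b6025.UB

namespace BM

/-- The digits in base `b ^ M`. -/
def tp (b M : ℕ) (t : ℕ → ℤ) : ℕ → ℤ
  | 0 => t 0
  | k + 1 => ∑ r ∈ Finset.range M, t (k * M + r + 1) * (b : ℤ) ^ (M - 1 - r)

theorem geom_le {b : ℕ} (hb : 2 ≤ b) (M : ℕ) :
    ∑ r ∈ Finset.range M, (b : ℤ) ^ (M - 1 - r) ≤ (b : ℤ) ^ M := by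
  rw [Finset.sum_range_reflect (fun r => (b : ℤ) ^ r) M]
  have h1 : ((b : ℤ) - 1) * ∑ r ∈ Finset.range M, (b : ℤ) ^ r = (b : ℤ) ^ M - 1 := by
    rw [mul_comm]
    exact geom_sum_mul _ _
  have h2 : 0 ≤ ∑ r ∈ Finset.range M, (b : ℤ) ^ r := Finset.sum_nonneg fun r _ => by positivity
  have h3 : (2 : ℤ) ≤ b := by exact_mod_cast hb
  nlinarith

theorem tp_bound {b : ℕ} (hb : 2 ≤ b) {M : ℕ} {t : ℕ → ℤ} (ht : ∀ n, |t n| ≤ (b : ℤ) ^ M) (n : ℕ) :
    |tp b M t n| ≤ ((b ^ M : ℕ) : ℤ) ^ 2 := by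
  have h1 : (1 : ℤ) ≤ (b : ℤ) ^ M := one_le_pow₀ (by exact_mod_cast (by omega : 1 ≤ b))
  push_cast
  cases n with
  | zero =>
    simp only [tp]
    refine (ht 0).trans ?_
    nlinarith
  | succ k =>
    simp only [tp]
    calc |∑ r ∈ Finset.range M, t (k * M + r + 1) * (b : ℤ) ^ (M - 1 - r)|
        ≤ ∑ r ∈ Finset.range M, |t (k * M + r + 1) * (b : ℤ) ^ (M - 1 - r)| :=
          Finset.abs_sum_le_sum_abs _ _
      _ ≤ ∑ r ∈ Finset.range M, (b : ℤ) ^ M * (b : ℤ) ^ (M - 1 - r) := by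
          refine Finset.sum_le_sum fun r _ => ?_
          rw [abs_mul, abs_of_nonneg (by positivity : (0 : ℤ) ≤ (b : ℤ) ^ (M - 1 - r))]
          exact mul_le_mul_of_nonneg_right (ht _) (by positivity)
      _ = (b : ℤ) ^ M * ∑ r ∈ Finset.range M, (b : ℤ) ^ (M - 1 - r) := by rw [Finset.mul_sum]
      _ ≤ (b : ℤ) ^ M * (b : ℤ) ^ M := mul_le_mul_of_nonneg_left (geom_le hb M) (by positivity)
      _ = ((b : ℤ) ^ M) ^ 2 := by ring

theorem bet_tp {b : ℕ} (hb : 2 ≤ b) {M : ℕ} (hM : 0 < M) {t : ℕ → ℤ} {B : ℕ}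
    (ht : ∀ n, |t n| ≤ B) : DC.bet (b ^ M) (tp b M t) = DC.bet b t := by
  have hb0 : (b : ℝ) ≠ 0 := by positivity
  have hs := DC.TappM.summable_bet b hb t B ht
  set s : ℕ → ℝ := fun m => (t (m + 1) : ℝ) / (b : ℝ) ^ (m + 1) with hsd
  have hs1 : Summable s := (summable_nat_add_iff 1).2 hs
  have : NeZero M := ⟨hM.ne'⟩
  -- blocks
  have hblock : ∀ k : ℕ, (tp b M t (k + 1) : ℝ) / ((b ^ M : ℕ) : ℝ) ^ (k + 1) =
      ∑ r : Fin M, s ((Nat.divModEquiv M).symm (k, r)) := by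
    intro k
    simp only [tp, Nat.divModEquiv_symm_apply]
    push_cast
    rw [Finset.sum_div, Finset.sum_range]
    refine Finset.sum_congr rfl fun r _ => ?_
    have hr := r.2
    simp only [hsd]
    rw [← pow_mul, div_eq_div_iff (by positivity) (by positivity)]
    have h2 : M * (k + 1) = (k * M + r + 1) + (M - 1 - r) := by
      have : M * (k + 1) = k * M + M := by ring
      omega
    rw [h2, pow_add]
    ring
  have hs2 : Summable fun x : ℕ × Fin M => s ((Nat.divModEquiv M).symm x) :=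
    ((Nat.divModEquiv M).symm.summable_iff).2 hs1
  have h3 : HasSum (fun k : ℕ => ∑ r : Fin M, s ((Nat.divModEquiv M).symm (k, r))) (∑' m, s m) := by
    have h4 : HasSum (fun x : ℕ × Fin M => s ((Nat.divModEquiv M).symm x)) (∑' m, s m) := by
      have := hs2.hasSum
      rwa [(Nat.divModEquiv M).symm.tsum_eq s] at this
    exact h4.prod_fiberwise fun k => hasSum_fintype _
  have h5 : HasSum (fun n => (tp b M t n : ℝ) / ((b ^ M : ℕ) : ℝ) ^ n) ((t 0 : ℝ) + ∑' m, s m) := by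
    rw [← hasSum_nat_add_iff' 1]
    simp only [Finset.sum_range_one, pow_zero, div_one]
    have h6 : (t 0 : ℝ) + ∑' m, s m - ((tp b M t 0 : ℤ) : ℝ) = ∑' m, s m := by
      simp [tp]
    rw [h6]
    exact h3.congr_fun hblock
  unfold DC.bet
  rw [h5.tsum_eq, hs.tsum_eq_zero_add]
  simp [hsd]

/-- Nonzero digits in base `b ^ M` give nonzero digits in base `b`. -/
theorem count_le {b M N : ℕ} (hM : 0 < M) (t : ℕ → ℤ) :
    ((Finset.range (N / M)).filter fun n => tp b M t n ≠ 0).card ≤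
      ((Finset.range N).filter fun n => t n ≠ 0).card := by
  classical
  have hex : ∀ n, tp b M t n ≠ 0 → ∃ m, t m ≠ 0 ∧ m ≤ n * M ∧ n * M < m + M := by
    intro n hn
    cases n with
    | zero => exact ⟨0, by simpa [tp] using hn, by simp, by simpa using hM⟩
    | succ k =>
      simp only [tp] at hn
      obtain ⟨r, hr, hr'⟩ := Finset.exists_ne_zero_of_sum_ne_zero hn
      rw [Finset.mem_range] at hr
      refine ⟨k * M + r + 1, fun h => hr' (by rw [h, zero_mul]), ?_, ?_⟩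
      · have : (k + 1) * M = k * M + M := by ring
        omega
      · have : (k + 1) * M = k * M + M := by ring
        omega
  choose! g hg using hex
  refine Finset.card_le_card_of_injOn g (fun n hn => ?_) fun n hn n' hn' h => ?_
  · rw [Finset.mem_coe, Finset.mem_filter, Finset.mem_range] at hn ⊢
    obtain ⟨h1, h2, h3⟩ := hg n hn.2
    refine ⟨?_, h1⟩
    have h4 : (n + 1) * M ≤ N := by
      calc (n + 1) * M ≤ N / M * M := Nat.mul_le_mul_right _ hn.1
        _ ≤ N := Nat.div_mul_le_self N M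
    have h5 : (n + 1) * M = n * M + M := by ring
    omega
  · rw [Finset.mem_coe, Finset.mem_filter] at hn hn'
    obtain ⟨-, h2, h3⟩ := hg n hn.2
    obtain ⟨-, h2', h3'⟩ := hg n' hn'.2
    rw [h] at h2 h3
    by_contra hne
    rcases Nat.lt_or_gt_of_ne hne with h4 | h4
    · have : (n + 1) * M ≤ n' * M := Nat.mul_le_mul_right _ h4
      have h5 : (n + 1) * M = n * M + M := by ring
      omega
    · have : (n' + 1) * M ≤ n * M := Nat.mul_le_mul_right _ h4
      have h5 : (n' + 1) * M = n' * M + M := by ring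
      omega

end BM

open BM

/-- Module B. -/
theorem specB (hA : SpecA) : SpecB := by
  intro p d c e hp hd hc he hpc
  obtain ⟨NA, hNA⟩ := hA p d (c + 1) 2 hp hd (by omega) hpc
  set e' : ℝ := min e 1 with he'
  have he'0 : 0 < e' := lt_min he one_pos
  have he'1 : e' ≤ 1 := min_le_right _ _
  have hT : Tendsto (fun N : ℕ => (N : ℝ) ^ (e' / 2)) atTop atTop :=
    (tendsto_rpow_atTop (by positivity)).comp tendsto_natCast_atTop_atTop
  have hL : Tendsto (fun N : ℕ => Real.log N) atTop atTop :=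
    Real.tendsto_log_atTop.comp tendsto_natCast_atTop_atTop
  have hev := ((hT.eventually_ge_atTop (max 4 NA)).and
    ((hL.eventually_ge_atTop ((2 / e') ^ (c + 1))).and (eventually_ge_atTop 1))).exists_forall_of_atTop
  obtain ⟨N₀, hN₀⟩ := hev
  refine ⟨N₀, fun N b t P hN hb hpb ht hPd hPc hG hP => ?_⟩
  obtain ⟨h1, h2, h3⟩ := hN₀ N hN
  have hN1 : (1 : ℝ) ≤ N := by exact_mod_cast h3
  have hN0 : (0 : ℝ) < N := by linarith
  have h4 : (4 : ℝ) ≤ (N : ℝ) ^ (e' / 2) := (le_max_left _ _).trans h1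
  have h5 : (NA : ℝ) ≤ (N : ℝ) ^ (e' / 2) := (le_max_right _ _).trans h1
  set M : ℕ := ⌈(N : ℝ) ^ (1 - e)⌉₊ with hM
  have hM0 : 0 < M := Nat.ceil_pos.2 (Real.rpow_pos_of_pos hN0 _)
  have hMle : (N : ℝ) ^ (1 - e) ≤ M := Nat.le_ceil _
  have hb1 : (1 : ℝ) ≤ b := by exact_mod_cast (by omega : 1 ≤ b)
  have hbM : (b : ℝ) ^ ((N : ℝ) ^ (1 - e)) ≤ (b : ℝ) ^ M := by
    rw [← Real.rpow_natCast]
    exact Real.rpow_le_rpow_of_exponent_le hb1 hMle
  have ht' : ∀ n, |t n| ≤ (b : ℤ) ^ M := by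
    intro n
    have := (ht n).trans hbM
    exact_mod_cast this
  have hP' : ∀ i, |P.coeff i| ≤ ((b ^ M : ℕ) : ℤ) ^ 2 := by
    intro i
    have h6 : |P.coeff i| ≤ (b : ℤ) ^ M := by
      have := (hPc i).trans hbM
      exact_mod_cast this
    have h7 : (1 : ℤ) ≤ (b : ℤ) ^ M := one_le_pow₀ (by exact_mod_cast (by omega : 1 ≤ b))
    push_cast
    nlinarith
  -- the number of digits
  have hMup : (M : ℝ) ≤ 2 * (N : ℝ) ^ (1 - e') := by
    have h6 : (M : ℝ) < (N : ℝ) ^ (1 - e) + 1 :=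
      Nat.ceil_lt_add_one (Real.rpow_nonneg hN0.le _)
    have h7 : (N : ℝ) ^ (1 - e) ≤ (N : ℝ) ^ (1 - e') :=
      Real.rpow_le_rpow_of_exponent_le hN1 (by linarith [min_le_left e 1])
    have h8 : (1 : ℝ) ≤ (N : ℝ) ^ (1 - e') := Real.one_le_rpow hN1 (by linarith)
    linarith
  have hM0' : (0 : ℝ) < M := by exact_mod_cast hM0
  have hN' : (N : ℝ) ^ (e' / 2) ≤ ((N / M : ℕ) : ℝ) := by
    have h6 : (N : ℝ) / M < ((N / M : ℕ) : ℝ) + 1 := by
      rw [div_lt_iff₀ hM0']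
      have h7 : N < (N / M + 1) * M := by
        have := Nat.lt_mul_div_succ N hM0
        rwa [mul_comm] at this
      exact_mod_cast h7
    have h7 : (N : ℝ) ^ e' / 2 ≤ (N : ℝ) / M := by
      rw [div_le_div_iff₀ (by norm_num) hM0']
      calc (N : ℝ) ^ e' * M ≤ (N : ℝ) ^ e' * (2 * (N : ℝ) ^ (1 - e')) := by gcongr
        _ = ((N : ℝ) ^ e' * (N : ℝ) ^ (1 - e')) * 2 := by ring
        _ = N * 2 := by
            rw [← Real.rpow_add hN0]
            norm_num
    have h8 : (N : ℝ) ^ e' = (N : ℝ) ^ (e' / 2) * (N : ℝ) ^ (e' / 2) := by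
      rw [← Real.rpow_add hN0]
      ring_nf
    rw [h8] at h7
    nlinarith
  have hNA' : NA ≤ N / M := by
    have := h5.trans hN'
    exact_mod_cast this
  have hmain := hNA (N / M) (b ^ M) (tp b M t) P hNA' (Nat.le_trans hb (Nat.le_self_pow hM0.ne' b))
    (fun h => hpb (hp.dvd_of_dvd_pow h)) (tp_bound hb ht') hPd hP' hG
    (by
      rw [bet_tp hb hM0 (B := b ^ M) (fun n => by push_cast; exact ht' n)]
      exact hP)
  have hcard := count_le (b := b) (N := N) hM0 t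
  have hlog : e' / 2 * Real.log N ≤ Real.log ((N / M : ℕ) : ℝ) := by
    rw [← Real.log_rpow hN0]
    exact Real.log_le_log (Real.rpow_pos_of_pos hN0 _) hN'
  have hlogN : 0 ≤ Real.log N := Real.log_nonneg hN1
  calc Real.log N ^ c = Real.log N ^ c * 1 := by rw [mul_one]
    _ ≤ Real.log N ^ c * ((e' / 2) ^ (c + 1) * Real.log N) := by
        gcongr
        calc (1 : ℝ) = (e' / 2) ^ (c + 1) * (2 / e') ^ (c + 1) := by
              rw [← mul_pow]
              have : e' / 2 * (2 / e') = 1 := by field_simp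
              rw [this, one_pow]
          _ ≤ (e' / 2) ^ (c + 1) * Real.log N := by gcongr
    _ = (e' / 2 * Real.log N) ^ (c + 1) := by ring
    _ ≤ Real.log ((N / M : ℕ) : ℝ) ^ (c + 1) := by gcongr
    _ ≤ _ := hmain
    _ ≤ _ := by exact_mod_cast hcard

end Pool.Agent.Lib.MP5b6025.UB
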