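import Pool.Agent.Lib.MP_5b6025_nt.EP.SpecI

/-!
# Digits of algebraic numbers in all bases at once: module specifications

THEOREM (helper75). Let `p` be a prime `≥ 2^(20 d (c+2))`, `e > 0`. There is `N₀` such that for all
`N ≥ N₀`, ALL bases `b ≥ 2`, all integer polynomials `P` of degree `≤ d` and `g` of degree
`≤ N^(1-e)`, with coefficients `≤ b^(N^(1-e))`, such that `p` divides neither `b` nor `g(b)` nor the
leading coefficient of `P` and `P` has no root modulo `p`, and all real roots `x` of `P`: at least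
`(log N)^c` of the `n < N` satisfy `∑_j g_j d_(n+j) ≠ 0`, `d_n` = digits of `x` in base `b`.

Method: EP (EveryPower) with uniform parameters; the only place where `b`, the bound for `t` and `P`
enter is `C * DC.GG B D N < b^K` in `SpecEXK`; changing the base `b` to `b^M` (`M ≈ N^(1-e)`) turns
bounds `b^M` into bounds `(b^M)^γ`.
-/

set_option autoImplicit false

open Polynomial

namespace Pool.Agent.Lib.MP5b6025.UB

/-- The leading coefficient and all the values of `P` are prime to `p` (so `P` has no root modulo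
`p`). -/
def Good (p : ℕ) (P : ℤ[X]) : Prop := ¬ (p : ℤ) ∣ P.leadingCoeff ∧ ∀ a : ℤ, ¬ (p : ℤ) ∣ P.eval a

/-- Module RED: from `P` modulo `p` to a separable polynomial. `R` = radical of `P` modulo `p`
(separable since `ZMod p` is perfect), `P ∣ R^p` (`deg P ≤ p`), `(R G)^p = R^p G^p` is a multiple of
`P`, so `T(R G, X)^p = T((R G)^p, p X) = 0` if `p X` is a gap of order `p D`. -/
def SpecRED : Prop :=
  ∀ (p : ℕ) [Fact p.Prime] (Q : (ZMod p)[X]), 1 ≤ Q.natDegree → Q.natDegree ≤ p →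
    (∀ x : ZMod p, ¬ Q.IsRoot x) →
    ∃ R : (ZMod p)[X], R.Separable ∧ (∀ x : ZMod p, ¬ R.IsRoot x) ∧ 2 ≤ R.natDegree ∧
      R.natDegree ≤ Q.natDegree ∧ Q ∣ R ^ p

/-- Module A: the theorem for bounded digits, uniform in the base. -/
def SpecA : Prop :=
  ∀ (p d c γ : ℕ), p.Prime → 1 ≤ d → 1 ≤ c → 2 ^ (20 * d * (c + 1)) ≤ p →
    ∃ N₀ : ℕ, ∀ (N b : ℕ) (t : ℕ → ℤ) (P : ℤ[X]), N₀ ≤ N → 2 ≤ b → ¬ p ∣ b →
      (∀ n, |t n| ≤ (b : ℤ) ^ γ) → P.natDegree ≤ d → (∀ i, |P.coeff i| ≤ (b : ℤ) ^ γ) →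
      Good p P → aeval (DC.bet b t) P = 0 →
      Real.log N ^ c ≤ ((Finset.range N).filter fun n => t n ≠ 0).card

/-- Module B (from A): digits up to `b^(N^(1-e))`. Base `b' = b^M`, `M = ⌈N^(1-e)⌉`, `γ = 3`,
`t' n = ∑_{i < M, i ≤ n M} t (n M - i) b^i` for `n ≥ 1`, `t' 0 = t 0`, so that
`∑ t'_n b'^(-n) = ∑ t_n b^(-n)`; `N' = N / M ≥ N^(e/2)`; every nonzero `t'_n`, `n < N'`, gives a nonzero
`t_m`, `(n-1) M < m ≤ n M < N`. `(log N')^(c+1) ≥ (log N)^c`. -/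
def SpecB : Prop :=
  ∀ (p d c : ℕ) (e : ℝ), p.Prime → 1 ≤ d → 1 ≤ c → 0 < e → 2 ^ (20 * d * (c + 2)) ≤ p →
    ∃ N₀ : ℕ, ∀ (N b : ℕ) (t : ℕ → ℤ) (P : ℤ[X]), N₀ ≤ N → 2 ≤ b → ¬ p ∣ b →
      (∀ n, |(t n : ℝ)| ≤ (b : ℝ) ^ ((N : ℝ) ^ (1 - e))) → P.natDegree ≤ d →
      (∀ i, |(P.coeff i : ℝ)| ≤ (b : ℝ) ^ ((N : ℝ) ^ (1 - e))) → Good p P →
      aeval (DC.bet b t) P = 0 →
      Real.log N ^ c ≤ ((Finset.range N).filter fun n => t n ≠ 0).card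

/-- Module C (from B): the digits of algebraic numbers. `t n = ∑_j g_j d_(n+j)`, `d_m` = digits of
`x`; `∑ t_n b^(-n) = b g(b) x - I` with an integer `I`, `|I| ≤ b^(6 N^(1-e))` or so;
`P' = (P.scaleRoots (b g(b))).comp (X + C I)`. -/
def SpecC : Prop :=
  ∀ (p d c : ℕ) (e : ℝ), p.Prime → 1 ≤ d → 1 ≤ c → 0 < e → 2 ^ (20 * d * (c + 2)) ≤ p →
    ∃ N₀ : ℕ, ∀ (N b : ℕ) (P g : ℤ[X]) (x : ℝ), N₀ ≤ N → 2 ≤ b → ¬ p ∣ b →
      P.natDegree ≤ d → (g.natDegree : ℝ) ≤ (N : ℝ) ^ (1 - e) →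
      (∀ i, |(P.coeff i : ℝ)| ≤ (b : ℝ) ^ ((N : ℝ) ^ (1 - e))) →
      (∀ i, |(g.coeff i : ℝ)| ≤ (b : ℝ) ^ ((N : ℝ) ^ (1 - e))) → Good p P →
      ¬ (p : ℤ) ∣ g.eval (b : ℤ) → aeval x P = 0 →
      Real.log N ^ c ≤ ((Finset.range N).filter fun n =>
        g.sum (fun j a => a * DC.digit b x (n + j)) ≠ 0).card

/-- Module D: infinitely many good primes (`DD.specRLS`). -/
def SpecD : Prop :=
  ∀ x : ℝ, IsAlgebraic ℚ x → Irrational x →
    ∃ P : ℤ[X], aeval x P = 0 ∧ {p : ℕ | p.Prime ∧ Good p P}.Infinite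

end Pool.Agent.Lib.MP5b6025.UB
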