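import Pool.Agent.Lib.MP_5b6025_nt.DD.FIN
import Pool.Agent.Lib.MP_5b6025_nt.UB.Spec

/-!
# Module C: the digits of algebraic numbers in all bases
-/

set_option autoImplicit false

open Polynomial

namespace Pool.Agent.Lib.MP5b6025.UB

namespace CM

/-- The size of the parameters. -/
theorem exists_large (C e : ℝ) (he : 0 < e) :
    ∃ N₀ : ℕ, ∀ N : ℕ, N₀ ≤ N →
      C * ((N : ℝ) ^ (1 - e) + 1) ≤ (N : ℝ) ^ (1 - min (e / 2) (1 / 2)) := by
  set e' : ℝ := min (e / 2) (1 / 2) with he'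
  have h1 : e' ≤ e / 2 := min_le_left _ _
  have h2 : e' ≤ 1 / 2 := min_le_right _ _
  have h3 : Filter.Tendsto (fun N : ℕ => (N : ℝ) ^ (e - e')) Filter.atTop Filter.atTop :=
    (tendsto_rpow_atTop (by linarith)).comp tendsto_natCast_atTop_atTop
  have h4 : Filter.Tendsto (fun N : ℕ => (N : ℝ) ^ (1 - e')) Filter.atTop Filter.atTop :=
    (tendsto_rpow_atTop (by linarith)).comp tendsto_natCast_atTop_atTop
  obtain ⟨N₀, hN⟩ := Filter.eventually_atTop.1
    (((h3.eventually_ge_atTop (2 * C)).and (h4.eventually_ge_atTop (2 * C))).and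
      (Filter.eventually_ge_atTop 1))
  refine ⟨N₀, fun N hN0 => ?_⟩
  obtain ⟨⟨h5, h6⟩, h7⟩ := hN N hN0
  have h8 : (0 : ℝ) < N := by exact_mod_cast h7
  have h9 : (N : ℝ) ^ (1 - e') = (N : ℝ) ^ (e - e') * (N : ℝ) ^ (1 - e) := by
    rw [← Real.rpow_add h8]
    congr 1
    ring
  have h10 : 0 < (N : ℝ) ^ (1 - e) := Real.rpow_pos_of_pos h8 _
  have h11 : 2 * C * (N : ℝ) ^ (1 - e) ≤ (N : ℝ) ^ (e - e') * (N : ℝ) ^ (1 - e) :=
    mul_le_mul_of_nonneg_right h5 h10.le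
  linarith

/-- The roots of `P`. -/
theorem root_le (P : ℤ[X]) (x A : ℝ) (hP : P ≠ 0) (hx : aeval x P = 0) (hA : 0 ≤ A)
    (h : ∀ i, |(P.coeff i : ℝ)| ≤ A) : |x| ≤ A + 1 := by
  have hinj : Function.Injective (Int.castRingHom ℝ) := Int.cast_injective
  have h0 : P.map (Int.castRingHom ℝ) ≠ 0 := (Polynomial.map_ne_zero_iff hinj).2 hP
  have h1 : (P.map (Int.castRingHom ℝ)).IsRoot x := by
    rw [IsRoot.def, eval_map]
    exact hx
  have h2 := h1.norm_lt_cauchyBound h0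
  have h3 : ((P.map (Int.castRingHom ℝ)).cauchyBound : ℝ) ≤ A + 1 := by
    rw [cauchyBound]
    push_cast
    gcongr
    have h4 : (1 : ℝ) ≤ ‖(P.map (Int.castRingHom ℝ)).leadingCoeff‖ := by
      rw [leadingCoeff_map_of_injective hinj, eq_intCast, Real.norm_eq_abs]
      exact_mod_cast Int.one_le_abs (leadingCoeff_ne_zero.2 hP)
    rw [div_le_iff₀ (by linarith)]
    have h5 : (((Finset.range (P.map (Int.castRingHom ℝ)).natDegree).sup
        (fun i => ‖(P.map (Int.castRingHom ℝ)).coeff i‖₊) : NNReal) : ℝ) ≤ A := by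
      have h6 : (Finset.range (P.map (Int.castRingHom ℝ)).natDegree).sup
          (fun i => ‖(P.map (Int.castRingHom ℝ)).coeff i‖₊) ≤ A.toNNReal := by
        refine Finset.sup_le fun i _ => ?_
        rw [← NNReal.coe_le_coe, Real.coe_toNNReal _ hA, coe_nnnorm, coeff_map, eq_intCast,
          Real.norm_eq_abs]
        exact h i
      have h7 := NNReal.coe_le_coe.2 h6
      rwa [Real.coe_toNNReal _ hA] at h7
    nlinarith
  have h4 : |x| < (P.map (Int.castRingHom ℝ)).cauchyBound := by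
    have h5 := NNReal.coe_lt_coe.2 h2
    rwa [coe_nnnorm, Real.norm_eq_abs] at h5
  linarith

/-- The shifted and rescaled polynomial. -/
noncomputable def Sh (P : ℤ[X]) (s I : ℤ) : ℤ[X] := (P.scaleRoots s).comp (X + C I)

theorem natDegree_Sh (P : ℤ[X]) (s I : ℤ) : (Sh P s I).natDegree = P.natDegree := by
  rw [Sh, natDegree_comp, natDegree_X_add_C, natDegree_scaleRoots, mul_one]

theorem aeval_Sh (P : ℤ[X]) (s I : ℤ) (x : ℝ) (h : aeval x P = 0) :
    aeval ((s : ℝ) * x - I) (Sh P s I) = 0 := by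
  rw [Sh, aeval_comp]
  have h1 : aeval ((s : ℝ) * x - I) (X + C I : ℤ[X]) = (s : ℝ) * x := by
    simp
  rw [h1]
  have h2 := scaleRoots_eval₂_mul (p := P) (Int.castRingHom ℝ) x s
  rw [eq_intCast] at h2
  have h3 : aeval ((s : ℝ) * x) (P.scaleRoots s) =
      eval₂ (Int.castRingHom ℝ) ((s : ℝ) * x) (P.scaleRoots s) := rfl
  have h4 : eval₂ (Int.castRingHom ℝ) x P = 0 := h
  rw [h3, h2, h4, mul_zero]

theorem good_Sh (p : ℕ) (hp : p.Prime) (P : ℤ[X]) (s I : ℤ) (hs : ¬ (p : ℤ) ∣ s)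
    (h : Good p P) : Good p (Sh P s I) := by
  have : Fact p.Prime := ⟨hp⟩
  refine ⟨?_, fun a ha => ?_⟩
  · have h1 : (Sh P s I).leadingCoeff = P.leadingCoeff := by
      rw [Sh, leadingCoeff_comp (by rw [natDegree_X_add_C]; exact one_ne_zero),
        leadingCoeff_X_add_C, one_pow, mul_one, leadingCoeff, natDegree_scaleRoots,
        coeff_scaleRoots_natDegree]
    rw [h1]
    exact h.1
  · rw [Sh, eval_comp] at ha
    have h1 : ((X + C I : ℤ[X]).eval a) = a + I := by simp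
    rw [h1] at ha
    have hs' : (s : ZMod p) ≠ 0 := fun h0 => hs ((ZMod.intCast_zmod_eq_zero_iff_dvd s p).1 h0)
    obtain ⟨z, hz⟩ := ZMod.intCast_surjective ((s : ZMod p)⁻¹ * ((a + I : ℤ) : ZMod p))
    have h2 : ((a + I : ℤ) : ZMod p) = (s : ZMod p) * (z : ZMod p) := by
      rw [hz, mul_inv_cancel_left₀ hs']
    have h3 := scaleRoots_eval₂_mul (p := P) (Int.castRingHom (ZMod p)) (z : ZMod p) s
    rw [eq_intCast, ← h2] at h3
    have h4 : eval₂ (Int.castRingHom (ZMod p)) ((a + I : ℤ) : ZMod p) (P.scaleRoots s) = 0 := by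
      have h5 := hom_eval₂ (P.scaleRoots s) (RingHom.id ℤ) (Int.castRingHom (ZMod p)) (a + I)
      rw [RingHom.comp_id, eq_intCast] at h5
      rw [← eq_intCast (Int.castRingHom (ZMod p)) (a + I), ← h5]
      exact (ZMod.intCast_zmod_eq_zero_iff_dvd _ p).2 ha
    rw [h4] at h3
    have h6 : eval₂ (Int.castRingHom (ZMod p)) (z : ZMod p) P = 0 :=
      (mul_eq_zero.1 h3.symm).resolve_left (pow_ne_zero _ hs')
    refine h.2 z ((ZMod.intCast_zmod_eq_zero_iff_dvd _ p).1 ?_)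
    have h7 := hom_eval₂ P (RingHom.id ℤ) (Int.castRingHom (ZMod p)) z
    rw [RingHom.comp_id] at h7
    rw [← h6]
    exact h7

/-- The coefficients. -/
theorem coeff_Sh (P : ℤ[X]) (s I : ℤ) (A : ℝ) (d k : ℕ) (hA : 2 ≤ A) (hd : P.natDegree ≤ d)
    (hP : ∀ i, |(P.coeff i : ℝ)| ≤ A) (hs : |(s : ℝ)| ≤ A ^ k) (hI : |(I : ℝ)| ≤ A ^ k) (i : ℕ) :
    |((Sh P s I).coeff i : ℝ)| ≤ A ^ ((k + 2) * d + 1) := by
  have hA1 : 1 ≤ A := by linarith
  have h1 : (Sh P s I).coeff i = ∑ m ∈ Finset.range (d + 1),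
      ((m + i).choose i : ℤ) * (P.scaleRoots s).coeff (m + i) * I ^ m := by
    have h2 : Sh P s I = taylor I (P.scaleRoots s) := by rw [Sh, taylor_apply]
    rw [h2, taylor_coeff, eval_eq_sum_range' (n := d + 1)]
    · exact Finset.sum_congr rfl fun m _ => by rw [hasseDeriv_coeff]
    · refine Nat.lt_succ_of_le ((natDegree_hasseDeriv_le _ _).trans ?_)
      rw [natDegree_scaleRoots]
      omega
  have h3 : ∀ m ∈ Finset.range (d + 1),
      |((((m + i).choose i : ℤ) * (P.scaleRoots s).coeff (m + i) * I ^ m : ℤ) : ℝ)| ≤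
        (2 : ℝ) ^ d * A * A ^ (k * d) := by
    intro m hm
    by_cases hmi : m + i ≤ P.natDegree
    · rw [coeff_scaleRoots]
      push_cast
      rw [abs_mul, abs_mul, abs_mul, abs_pow, abs_pow, Nat.abs_cast]
      have h4 : ((m + i).choose i : ℝ) ≤ 2 ^ d := by
        have h5 : (m + i).choose i ≤ 2 ^ (m + i) := Nat.choose_le_two_pow _ _
        have h6 : (2 : ℕ) ^ (m + i) ≤ 2 ^ d := Nat.pow_le_pow_right (by norm_num) (by omega)
        exact_mod_cast h5.trans h6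
      have h5 : |(s : ℝ)| ^ (P.natDegree - (m + i)) * |(I : ℝ)| ^ m ≤ A ^ (k * d) := by
        calc |(s : ℝ)| ^ (P.natDegree - (m + i)) * |(I : ℝ)| ^ m
            ≤ (A ^ k) ^ (P.natDegree - (m + i)) * (A ^ k) ^ m := by gcongr
          _ = A ^ (k * (P.natDegree - (m + i) + m)) := by rw [← pow_add, ← pow_mul]
          _ ≤ A ^ (k * d) := pow_le_pow_right₀ hA1 (Nat.mul_le_mul_left _ (by omega))
      calc ((m + i).choose i : ℝ) * (|(P.coeff (m + i) : ℝ)| *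
            |(s : ℝ)| ^ (P.natDegree - (m + i))) * |(I : ℝ)| ^ m
          = ((m + i).choose i : ℝ) * |(P.coeff (m + i) : ℝ)| *
            (|(s : ℝ)| ^ (P.natDegree - (m + i)) * |(I : ℝ)| ^ m) := by ring
        _ ≤ (2 : ℝ) ^ d * A * A ^ (k * d) := by
            gcongr
            exact hP _
    · have h4 : (P.scaleRoots s).coeff (m + i) = 0 :=
        coeff_eq_zero_of_natDegree_lt (by rw [natDegree_scaleRoots]; omega)
      rw [h4, mul_zero, zero_mul]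
      simp only [Int.cast_zero, abs_zero]
      positivity
  have h4 : ((d : ℝ) + 1) ≤ 2 ^ d := by
    have h5 : d + 1 ≤ 2 ^ d := Nat.lt_two_pow_self
    exact_mod_cast h5
  rw [h1, Int.cast_sum]
  refine (Finset.abs_sum_le_sum_abs _ _).trans ?_
  refine (Finset.sum_le_card_nsmul _ _ _ h3).trans ?_
  rw [Finset.card_range, nsmul_eq_mul]
  push_cast
  calc ((d : ℝ) + 1) * (2 ^ d * A * A ^ (k * d)) ≤ A ^ d * (A ^ d * A * A ^ (k * d)) := by
        gcongr
        exact h4.trans (pow_le_pow_left₀ (by norm_num) hA d)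
    _ = A ^ ((k + 2) * d + 1) := by ring

/-- The digits of a polynomial relation. -/
theorem abs_eval_le (g : ℤ[X]) (b : ℕ) (A : ℝ) (hb : 1 ≤ b)
    (hg : ∀ i, |(g.coeff i : ℝ)| ≤ A) (h1 : (g.natDegree : ℝ) + 1 ≤ A)
    (h2 : (b : ℝ) ^ g.natDegree ≤ A) : |((g.eval (b : ℤ) : ℤ) : ℝ)| ≤ A ^ 3 := by
  have hb1 : (1 : ℝ) ≤ b := by exact_mod_cast hb
  have hA : 0 ≤ A := (abs_nonneg _).trans (hg 0)
  rw [eval_eq_sum_range, Int.cast_sum]
  refine (Finset.abs_sum_le_sum_abs _ _).trans ?_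
  have h3 : ∀ i ∈ Finset.range (g.natDegree + 1),
      |((g.coeff i * (b : ℤ) ^ i : ℤ) : ℝ)| ≤ A * A := by
    intro i hi
    push_cast
    rw [abs_mul, abs_pow, Nat.abs_cast]
    have h4 : (b : ℝ) ^ i ≤ A :=
      (pow_le_pow_right₀ hb1 (Nat.lt_succ_iff.1 (Finset.mem_range.1 hi))).trans h2
    exact mul_le_mul (hg i) h4 (by positivity) hA
  refine (Finset.sum_le_card_nsmul _ _ _ h3).trans ?_
  rw [Finset.card_range, nsmul_eq_mul]
  push_cast
  calc ((g.natDegree : ℝ) + 1) * (A * A) ≤ A * (A * A) := by gcongr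
    _ = A ^ 3 := by ring

/-- The bound for the new digits. -/
theorem abs_dig_le (g : ℤ[X]) (b : ℕ) (x A : ℝ) (hb : 2 ≤ b) (hbA : (b : ℝ) ≤ A)
    (hg : ∀ i, |(g.coeff i : ℝ)| ≤ A) (h1 : (g.natDegree : ℝ) + 1 ≤ A) (n : ℕ) :
    |((g.sum fun j a => a * DC.digit b x (n + j) : ℤ) : ℝ)| ≤ A ^ 3 := by
  have hA : 0 ≤ A := (abs_nonneg _).trans (hg 0)
  rw [sum_over_range _ (fun j => by rw [zero_mul]), Int.cast_sum]
  refine (Finset.abs_sum_le_sum_abs _ _).trans ?_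
  have h3 : ∀ i ∈ Finset.range (g.natDegree + 1),
      |((g.coeff i * DC.digit b x (n + i) : ℤ) : ℝ)| ≤ A * A := by
    intro i _
    push_cast
    rw [abs_mul]
    have h4 : |(DC.digit b x (n + i) : ℝ)| ≤ A := by
      have h5 := DC.DigM.digit_nonneg b x hb (n + i)
      have h6 := DC.DigM.digit_lt b x hb (n + i)
      rw [abs_of_nonneg (by exact_mod_cast h5)]
      have h7 : (DC.digit b x (n + i) : ℝ) ≤ b := by exact_mod_cast h6.le
      exact h7.trans hbA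
    exact mul_le_mul (hg i) h4 (abs_nonneg _) hA
  refine (Finset.sum_le_card_nsmul _ _ _ h3).trans ?_
  rw [Finset.card_range, nsmul_eq_mul]
  push_cast
  calc ((g.natDegree : ℝ) + 1) * (A * A) ≤ A * (A * A) := by gcongr
    _ = A ^ 3 := by ring

/-- The bound for the series. -/
theorem abs_bet_le (b : ℕ) (t : ℕ → ℤ) (A : ℝ) (hb : 2 ≤ b) (ht : ∀ n, |(t n : ℝ)| ≤ A) :
    |DC.bet b t| ≤ 2 * A := by
  have hA : 0 ≤ A := (abs_nonneg _).trans (ht 0)
  have hb2 : (2 : ℝ) ≤ b := by exact_mod_cast hb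
  have h1 : HasSum (fun n : ℕ => A * (1 / 2 : ℝ) ^ n) (A * 2) := by
    have h2 := hasSum_geometric_of_lt_one (r := (1 / 2 : ℝ)) (by norm_num) (by norm_num)
    have h3 : (1 - (1 / 2 : ℝ))⁻¹ = 2 := by norm_num
    rw [h3] at h2
    exact h2.mul_left A
  have h4 : ∀ n : ℕ, ‖(t n : ℝ) / (b : ℝ) ^ n‖ ≤ A * (1 / 2 : ℝ) ^ n := by
    intro n
    rw [Real.norm_eq_abs, abs_div, abs_of_pos (by positivity : (0 : ℝ) < (b : ℝ) ^ n),
      one_div, inv_pow, ← div_eq_mul_inv]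
    exact div_le_div₀ hA (ht n) (by positivity) (pow_le_pow_left₀ (by norm_num) hb2 n)
  have h5 := tsum_of_norm_bounded h1 h4
  rw [Real.norm_eq_abs] at h5
  rw [DC.bet]
  linarith

end CM

theorem specC (h : SpecB) : SpecC := by
  intro p d c e hp hd hc he hpd
  obtain ⟨N₁, hN₁⟩ := CM.exists_large ((9 * d + 3 : ℕ) : ℝ) e he
  obtain ⟨N₂, hN₂⟩ := h p d c (min (e / 2) (1 / 2)) hp hd hc
    (lt_min (by linarith) (by norm_num)) hpd
  refine ⟨max N₁ N₂, fun N b P g x hN hb hpb hPd hgd hP hg hgood hpg hx => ?_⟩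
  have hN1 := hN₁ N ((le_max_left _ _).trans hN)
  set E : ℝ := (N : ℝ) ^ (1 - e) with hE
  have hE0 : 0 ≤ E := by positivity
  have hb2 : (2 : ℝ) ≤ b := by exact_mod_cast hb
  have hb1 : (1 : ℝ) ≤ b := by linarith
  have hb0 : (0 : ℝ) < b := by linarith
  set A : ℝ := (b : ℝ) ^ (E + 1) with hA
  have hAE : (b : ℝ) ^ E ≤ A := Real.rpow_le_rpow_of_exponent_le hb1 (by linarith)
  have hbA : (b : ℝ) ≤ A := by
    calc (b : ℝ) = (b : ℝ) ^ (1 : ℝ) := (Real.rpow_one _).symm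
      _ ≤ A := Real.rpow_le_rpow_of_exponent_le hb1 (by linarith)
  have hA2 : 2 ≤ A := hb2.trans hbA
  have hA1 : 1 ≤ A := by linarith
  have hA0 : 0 ≤ A := by linarith
  have hEA : E + 1 ≤ A := by
    have h1 := one_add_mul_self_le_rpow_one_add (s := (1 : ℝ)) (by norm_num)
      (p := E + 1) (by linarith)
    have h2 : (1 + 1 : ℝ) ^ (E + 1) ≤ A :=
      Real.rpow_le_rpow (by norm_num) (by linarith) (by linarith)
    linarith
  have hgA : (g.natDegree : ℝ) + 1 ≤ A := by linarith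
  have hbg : (b : ℝ) ^ g.natDegree ≤ A := by
    rw [← Real.rpow_natCast]
    exact (Real.rpow_le_rpow_of_exponent_le hb1 hgd).trans hAE
  have hP' : ∀ i, |(P.coeff i : ℝ)| ≤ A := fun i => (hP i).trans hAE
  have hg' : ∀ i, |(g.coeff i : ℝ)| ≤ A := fun i => (hg i).trans hAE
  have hP0 : P ≠ 0 := by
    rintro rfl
    exact hgood.1 (by simp)
  -- the numbers
  set s : ℤ := (b : ℤ) * g.eval (b : ℤ) with hs
  set I : ℤ := b * ∑ j ∈ g.support, g.coeff j * ⌊x * (b : ℝ) ^ j⌋ with hI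
  set t : ℕ → ℤ := fun n => g.sum fun j a => a * DC.digit b x (n + j) with ht
  have hbet : DC.bet b t = (s : ℝ) * x - I := DD.FINM.bet_rel b x hb g
  have htA : ∀ n, |(t n : ℝ)| ≤ A ^ 3 := fun n => CM.abs_dig_le g b x A hb hbA hg' hgA n
  have hsA : |(s : ℝ)| ≤ A ^ 4 := by
    rw [hs, Int.cast_mul, abs_mul]
    have h1 := CM.abs_eval_le g b A (by omega) hg' hgA hbg
    have h2 : |((b : ℤ) : ℝ)| ≤ A := by
      rw [Int.cast_natCast, Nat.abs_cast]
      exact hbA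
    calc |((b : ℤ) : ℝ)| * |((g.eval (b : ℤ) : ℤ) : ℝ)| ≤ A * A ^ 3 :=
          mul_le_mul h2 h1 (abs_nonneg _) hA0
      _ = A ^ 4 := by ring
  have hbetA : |DC.bet b t| ≤ A ^ 4 := by
    have h1 := CM.abs_bet_le b t (A ^ 3) hb htA
    have h2 : 2 * A ^ 3 ≤ A * A ^ 3 := by gcongr
    calc |DC.bet b t| ≤ 2 * A ^ 3 := h1
      _ ≤ A * A ^ 3 := h2
      _ = A ^ 4 := by ring
  have hxA : |x| ≤ A ^ 2 := by
    have h1 := CM.root_le P x A hP0 hx hA0 hP'
    nlinarith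
  have hIA : |(I : ℝ)| ≤ A ^ 7 := by
    have h1 : (I : ℝ) = (s : ℝ) * x - DC.bet b t := by rw [hbet]; ring
    have h2 : |(I : ℝ)| ≤ |(s : ℝ)| * |x| + |DC.bet b t| := by
      rw [h1, ← abs_mul]
      exact abs_sub _ _
    have h3 : |(s : ℝ)| * |x| ≤ A ^ 4 * A ^ 2 := mul_le_mul hsA hxA (abs_nonneg _) (by positivity)
    have h4 : A ^ 4 ≤ A ^ 6 := pow_le_pow_right₀ hA1 (by norm_num)
    have h5 : 2 * A ^ 6 ≤ A * A ^ 6 := by gcongr
    calc |(I : ℝ)| ≤ A ^ 4 * A ^ 2 + A ^ 4 := by linarith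
      _ ≤ 2 * A ^ 6 := by
          have : A ^ 4 * A ^ 2 = A ^ 6 := by ring
          linarith
      _ ≤ A * A ^ 6 := h5
      _ = A ^ 7 := by ring
  have hsA' : |(s : ℝ)| ≤ A ^ 7 := hsA.trans (pow_le_pow_right₀ hA1 (by norm_num))
  have hcast : ∀ k : ℕ, k ≤ 9 * d + 3 →
      A ^ k ≤ (b : ℝ) ^ ((N : ℝ) ^ (1 - min (e / 2) (1 / 2))) := by
    intro k hk
    rw [hA, ← Real.rpow_natCast, ← Real.rpow_mul hb0.le]
    refine Real.rpow_le_rpow_of_exponent_le hb1 (le_trans ?_ hN1)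
    rw [mul_comm]
    have h1 : (k : ℝ) ≤ ((9 * d + 3 : ℕ) : ℝ) := by exact_mod_cast hk
    exact mul_le_mul_of_nonneg_right h1 (by linarith)
  have hps : ¬ (p : ℤ) ∣ s := by
    intro h0
    rcases (Nat.prime_iff_prime_int.1 hp).dvd_or_dvd h0 with h1 | h1
    · exact hpb (Int.natCast_dvd_natCast.1 h1)
    · exact hpg h1
  refine hN₂ N b t (CM.Sh P s I) ((le_max_right _ _).trans hN) hb hpb
    (fun n => (htA n).trans (hcast 3 (by omega))) ?_ (fun i => ?_) (CM.good_Sh p hp P s I hps hgood)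
    ?_
  · rw [CM.natDegree_Sh]
    exact hPd
  · exact (CM.coeff_Sh P s I A d 7 hA2 hPd hP' hsA' hIA i).trans (hcast _ (by omega))
  · rw [hbet]
    exact CM.aeval_Sh P s I x hx

end Pool.Agent.Lib.MP5b6025.UB
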